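import Pool.Agent.MP_3d716e_an.H83.Sob

/-! The band inequality: isoperimetry between two levels of a function. -/

set_option autoImplicit false
open MeasureTheory Set Real Filter Topology

namespace Pool.Agent.MP_3d716e_an.H83

lemma cs_set {S : Set P} (hS : volume S ≠ ⊤) {h : P → ℝ} (h1 : IntegrableOn h S)
    (h2 : IntegrableOn (fun p => h p ^ 2) S) :
    (∫ p in S, h p) ^ 2 ≤ volume.real S * ∫ p in S, h p ^ 2 := by
  have key : ∀ c : ℝ, 0 ≤ volume.real S * (c * c) + (-2 * ∫ p in S, h p) * c +
      ∫ p in S, h p ^ 2 := fun c => by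
    have i0 : IntegrableOn (fun _ : P => c * c) S := integrableOn_const hS
    have i1 : IntegrableOn (fun p : P => -2 * h p * c) S := (h1.const_mul (-2)).mul_const c
    have i2 : IntegrableOn (fun p : P => c * c + -2 * h p * c) S := i0.add i1
    have : 0 ≤ ∫ p in S, (c * c + -2 * h p * c + h p ^ 2) :=
      integral_nonneg fun p => by simp only [Pi.zero_apply]; nlinarith [sq_nonneg (h p - c)]
    rw [integral_add i2 h2, integral_add i0 i1, setIntegral_const, integral_mul_const,
      integral_const_mul] at this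
    simpa using this
  have := discrim_le_zero key
  unfold discrim at this
  nlinarith

lemma fin_of_sub {f : P → ℝ} (hc : HasCompactSupport f) {S : Set P} (h : ∀ p ∈ S, f p ≠ 0) :
    volume S ≠ ⊤ :=
  ((measure_mono fun p hp => subset_tsupport f (h p hp)).trans_lt hc.isCompact.measure_lt_top).ne

lemma dx_comp {f : P → ℝ} (hf : ContDiff ℝ 1 f) {φ ψ : ℝ → ℝ} (h : ∀ y, HasDerivAt φ (ψ y) y)
    (p : P) : g2 (fun p => φ (f p)) p = ψ (f p) ^ 2 * g2 f p := by
  have h1 : HasFDerivAt (fun p => φ (f p)) (ψ (f p) • fderiv ℝ f p) p :=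
    (h (f p)).comp_hasFDerivAt p ((hf.differentiable one_ne_zero) p).hasFDerivAt
  simp only [g2, dx, dy, h1.fderiv, smul_apply, smul_eq_mul]
  ring

theorem band {f : P → ℝ} (hf : ContDiff ℝ 1 f) (hc : HasCompactSupport f) {s t : ℝ}
    (hs : 0 ≤ s) (hst : s < t) :
    4 * π * (t - s) ^ 2 * volume.real {p | t ≤ f p} ≤
      volume.real {p | s < f p ∧ f p < t} * ∫ p in {p | s < f p ∧ f p < t}, g2 f p := by
  have cf := hf.continuous
  have cg2 := cont_g2 hf
  set S : Set P := {p | s < f p ∧ f p < t} with hS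
  set U : Set P := {p | t ≤ f p} with hU
  have mS : MeasurableSet S :=
    (measurableSet_lt measurable_const cf.measurable).inter
      (measurableSet_lt cf.measurable measurable_const)
  have mU : MeasurableSet U := measurableSet_le measurable_const cf.measurable
  have fS : volume S ≠ ⊤ := fin_of_sub hc fun p hp => by have := hp.1; linarith
  have fU : volume U ≠ ⊤ := fin_of_sub hc fun p hp => by
    have : t ≤ f p := hp
    linarith
  obtain ⟨R, -, hR⟩ := exists_R hc
  have iN : Integrable fun p => √(g2 f p) :=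
    (by fun_prop : Continuous fun p => √(g2 f p)).integrable_of_hasCompactSupport
      (cs_of_R (R := R) fun p hp => by simp [g2, (hR p hp).2.1, (hR p hp).2.2])
  have hsq : ∀ p, √(g2 f p) ^ 2 = g2 f p := fun p => sq_sqrt (g2_nonneg f p)
  have hCS := cs_set fS (h := fun p => √(g2 f p)) iN.integrableOn
    (by simp only [hsq]; exact (int_g2 hf hc).integrableOn)
  simp only [hsq] at hCS
  refine le_trans ?_ hCS
  have key : ∀ δ : ℝ, 0 < δ → 2 * δ ≤ t - s →
      4 * π * (t - s - 2 * δ) ^ 2 * volume.real U ≤ (∫ p in S, √(g2 f p)) ^ 2 := by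
    intro δ hδ hδ2
    set ψ : ℝ → ℝ := fun y => max 0 (min 1 (min ((y - s) / δ) ((t - y) / δ))) with hψ
    have cψ : Continuous ψ := by rw [hψ]; fun_prop
    have ψ0 : ∀ y, 0 ≤ ψ y := fun y => le_max_left _ _
    have ψ1 : ∀ y, ψ y ≤ 1 := fun y => max_le zero_le_one (min_le_left _ _)
    have ψz : ∀ y, y ≤ s ∨ t ≤ y → ψ y = 0 := fun y hy => by
      refine max_eq_left ((min_le_right _ _).trans ?_)
      rcases hy with hy | hy
      · exact (min_le_left _ _).trans (div_nonpos_of_nonpos_of_nonneg (by linarith) hδ.le)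
      · exact (min_le_right _ _).trans (div_nonpos_of_nonpos_of_nonneg (by linarith) hδ.le)
    have ψo : ∀ y, s + δ ≤ y → y ≤ t - δ → ψ y = 1 := fun y h1 h2 => by
      have : min 1 (min ((y - s) / δ) ((t - y) / δ)) = 1 := by
        refine min_eq_left (le_min ?_ ?_) <;> rw [le_div_iff₀ hδ] <;> linarith
      simp only [hψ, this]; simp
    set φ : ℝ → ℝ := fun y => ∫ z in s..y, ψ z with hφ
    have dφ : ∀ y, HasDerivAt φ (ψ y) y := fun y =>
      (cψ.deriv_integral ψ s y) ▸ (by
        have := intervalIntegral.integral_hasDerivAt_right (cψ.intervalIntegrable s y)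
          (cψ.stronglyMeasurableAtFilter _ _) cψ.continuousAt
        exact this.differentiableAt.hasDerivAt)
    have cφ : ContDiff ℝ 1 φ := by
      rw [contDiff_one_iff_deriv]
      refine ⟨fun y => (dφ y).differentiableAt, ?_⟩
      have : deriv φ = ψ := funext fun y => (dφ y).deriv
      rw [this]; exact cψ
    have φ0 : φ 0 = 0 := by
      have : ∫ z in s..0, ψ z = ∫ z in s..0, (0 : ℝ) :=
        intervalIntegral.integral_congr fun z hz => ψz z (Or.inl (by
          rw [uIcc_of_ge hs] at hz; exact hz.2))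
      simp only [hφ, this]; simp
    have φt : ∀ y, t ≤ y → t - s - 2 * δ ≤ φ y := fun y hy => by
      have h1 : ∫ z in (s + δ)..(t - δ), ψ z = ∫ z in (s + δ)..(t - δ), (1 : ℝ) :=
        intervalIntegral.integral_congr fun z hz => by
          rw [uIcc_of_le (by linarith)] at hz
          exact ψo z hz.1 hz.2
      have h2 : ∫ z in (s + δ)..(t - δ), ψ z ≤ φ y :=
        intervalIntegral.integral_mono_interval (by linarith) (by linarith) (by linarith)
          (Eventually.of_forall fun z => ψ0 z) (cψ.intervalIntegrable _ _)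
      rw [h1] at h2
      simp at h2
      linarith
    have hg : ContDiff ℝ 1 fun p => φ (f p) := cφ.comp hf
    have hgc : HasCompactSupport fun p => φ (f p) :=
      cs_of_R (R := R) fun p hp => by simp [(hR p hp).1, φ0]
    have h1 := sobolev hg hgc
    have ig : Integrable fun p => φ (f p) ^ 2 :=
      (hg.continuous.pow 2).integrable_of_hasCompactSupport
        (cs_of_R (R := R) fun p hp => by simp [(hR p hp).1, φ0])
    have h2 : (t - s - 2 * δ) ^ 2 * volume.real U ≤ ∫ p, φ (f p) ^ 2 := by
      calc (t - s - 2 * δ) ^ 2 * volume.real U = ∫ p in U, (t - s - 2 * δ) ^ 2 := by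
            rw [setIntegral_const]; simp [mul_comm]
        _ ≤ ∫ p in U, φ (f p) ^ 2 :=
            setIntegral_mono_on (integrableOn_const fU) ig.integrableOn mU fun p hp =>
              pow_le_pow_left₀ (by linarith) (φt _ hp) 2
        _ ≤ _ := setIntegral_le_integral ig (Eventually.of_forall fun p => sq_nonneg _)
    have h3 : ∫ p, √(g2 (fun p => φ (f p)) p) ≤ ∫ p in S, √(g2 f p) := by
      rw [← integral_indicator mS]
      refine integral_mono_of_nonneg (Eventually.of_forall fun p => sqrt_nonneg _)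
        (iN.indicator mS) (Eventually.of_forall fun p => ?_)
      simp only [dx_comp hf dφ]
      rw [sqrt_mul (sq_nonneg _), sqrt_sq (ψ0 _)]
      by_cases hp : p ∈ S
      · rw [indicator_of_mem hp]
        exact mul_le_of_le_one_left (sqrt_nonneg _) (ψ1 _)
      · rw [indicator_of_notMem hp, ψz]
        · simp
        · by_contra h4
          push Not at h4
          exact hp h4
    have h4 : (∫ p, √(g2 (fun p => φ (f p)) p)) ^ 2 ≤ (∫ p in S, √(g2 f p)) ^ 2 :=
      pow_le_pow_left₀ (integral_nonneg fun p => sqrt_nonneg _) h3 2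
    nlinarith [pi_pos]
  have ht : Tendsto (fun δ : ℝ => 4 * π * (t - s - 2 * δ) ^ 2 * volume.real U) (𝓝[>] 0)
      (𝓝 (4 * π * (t - s - 2 * 0) ^ 2 * volume.real U)) :=
    (Continuous.tendsto (by fun_prop) 0).mono_left nhdsWithin_le_nhds
  rw [mul_zero, sub_zero] at ht
  refine le_of_tendsto ht ?_
  filter_upwards [Ioo_mem_nhdsGT (show (0 : ℝ) < (t - s) / 2 by linarith)] with δ hδ
  exact key δ hδ.1 (by linarith [hδ.2])

end Pool.Agent.MP_3d716e_an.H83
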