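import Pool.Agent.MP_3d716e_an.H83.Band

/-! Comparison with a Riccati solution along the levels of a function. -/

set_option autoImplicit false
open MeasureTheory Set Real Filter Topology

namespace Pool.Agent.MP_3d716e_an.H83

/-- Riccati data on the area interval `[0, S]`. -/
structure Ric (l S : ℝ) (H Q : ℝ → ℝ) : Prop where
  l0 : 0 ≤ l
  H0 : H 0 = 0
  Hn : ∀ s, 0 ≤ s → s ≤ S → 0 ≤ H s
  Qn : ∀ s, 0 ≤ s → s ≤ S → 0 ≤ Q s
  HQ : ∀ s, 0 ≤ s → s ≤ S → H s ^ 2 ≤ 4 * π * s * Q s
  inc : ∀ a b, 0 ≤ a → a ≤ b → b ≤ S → (l + Q a) * (b - a) ≤ H b - H a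

def U (f : P → ℝ) (t : ℝ) : Set P := {p | t < f p}
noncomputable def mu (f : P → ℝ) (t : ℝ) : ℝ := volume.real (U f t)

lemma meas_U {f : P → ℝ} (hf : Continuous f) (t : ℝ) : MeasurableSet (U f t) :=
  measurableSet_lt measurable_const hf.measurable

lemma fin_U {f : P → ℝ} (hc : HasCompactSupport f) {t : ℝ} (ht : 0 ≤ t) :
    volume (U f t) ≠ ⊤ := fin_of_sub hc fun p hp => by
  have : t < f p := hp
  linarith

lemma U_anti (f : P → ℝ) {s t : ℝ} (h : s ≤ t) : U f t ⊆ U f s := fun _ hp => lt_of_le_of_lt h hp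

lemma mu_anti {f : P → ℝ} (hc : HasCompactSupport f) {s t : ℝ} (hs : 0 ≤ s) (h : s ≤ t) :
    mu f t ≤ mu f s := measureReal_mono (U_anti f h) (fin_U hc hs)

lemma mu_nonneg (f : P → ℝ) (t : ℝ) : 0 ≤ mu f t := measureReal_nonneg

lemma int_sq {f : P → ℝ} (hf : Continuous f) (hc : HasCompactSupport f) (b : ℝ) {S : Set P}
    (hS : volume S ≠ ⊤) : IntegrableOn (fun p => (f p + b) ^ 2) S := by
  have i1 : Integrable f := hf.integrable_of_hasCompactSupport hc
  have i2 : Integrable fun p => f p ^ 2 := by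
    obtain ⟨R, -, hR⟩ := exists_R hc
    exact (hf.pow 2).integrable_of_hasCompactSupport
      (cs_of_R (R := R) fun p hp => by simp [(hR p hp).1])
  have i3 : IntegrableOn (fun _ : P => b ^ 2) S := integrableOn_const hS
  have : (fun p => (f p + b) ^ 2) = fun p => f p ^ 2 + 2 * b * f p + b ^ 2 := by
    funext p; ring
  rw [this]
  exact (i2.integrableOn.add (i1.integrableOn.const_mul _)).add i3

section
variable {f : P → ℝ} (hf : ContDiff ℝ 1 f) (hc : HasCompactSupport f)
  {l S : ℝ} {H Q : ℝ → ℝ} (hR : Ric l S H Q)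
include hf hc hR

lemma one_step {b s t : ℝ} (hs : 0 ≤ s) (hst : s < t) (hb : 0 ≤ s + b) (hS : mu f s ≤ S) :
    (∫ p in U f t, g2 f p) - l * (∫ p in U f t, (f p + b) ^ 2) + (t + b) ^ 2 * H (mu f t)
      - (t - s) ^ 2 * H (mu f t) - l * (2 * (t + b) * (t - s)) * (mu f s - mu f t) ≤
    (∫ p in U f s, g2 f p) - l * (∫ p in U f s, (f p + b) ^ 2) + (s + b) ^ 2 * H (mu f s) := by
  have cf := hf.continuous
  have ht : 0 ≤ t := by linarith
  have hm := mu_anti hc hs hst.le
  have hm0 := mu_nonneg f t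
  set B := U f s \ U f t with hB
  have mB : MeasurableSet B := (meas_U cf s).diff (meas_U cf t)
  have fB : volume B ≠ ⊤ := ne_top_of_le_ne_top (fin_U hc hs) (measure_mono sdiff_subset)
  have hBm : volume.real B = mu f s - mu f t :=
    measureReal_sdiff (U_anti f hst.le) (meas_U cf t) (fin_U hc hs)
  have hE : ∫ p in B, g2 f p = (∫ p in U f s, g2 f p) - ∫ p in U f t, g2 f p :=
    setIntegral_sdiff (meas_U cf t) (int_g2 hf hc).integrableOn (U_anti f hst.le)
  have hN : ∫ p in B, (f p + b) ^ 2 =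
      (∫ p in U f s, (f p + b) ^ 2) - ∫ p in U f t, (f p + b) ^ 2 :=
    setIntegral_sdiff (meas_U cf t) (int_sq cf hc b (fin_U hc hs)) (U_anti f hst.le)
  have hN2 : ∫ p in B, (f p + b) ^ 2 ≤ (t + b) ^ 2 * (mu f s - mu f t) := by
    calc _ ≤ ∫ p in B, (t + b) ^ 2 :=
          setIntegral_mono_on (int_sq cf hc b fB) (integrableOn_const fB) mB fun p hp => by
            have h1 : s < f p := hp.1
            have h2 : ¬ t < f p := hp.2
            exact pow_le_pow_left₀ (by linarith) (by linarith [not_lt.1 h2]) 2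
      _ = _ := by rw [setIntegral_const, hBm]; simp [mul_comm]
  have hE0 : 0 ≤ ∫ p in B, g2 f p := integral_nonneg fun p => g2_nonneg f p
  have hband : 4 * π * (t - s) ^ 2 * mu f t ≤ (mu f s - mu f t) * ∫ p in B, g2 f p := by
    have sub : {p | s < f p ∧ f p < t} ⊆ B := fun p hp => ⟨hp.1, not_lt.2 hp.2.le⟩
    calc _ ≤ 4 * π * (t - s) ^ 2 * volume.real {p | t ≤ f p} := by
          refine mul_le_mul_of_nonneg_left (measureReal_mono (fun p (hp : t < f p) => show t ≤ f p from hp.le) ?_)
            (by positivity)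
          exact fin_of_sub hc fun p hp => by
            have : t ≤ f p := hp
            linarith
      _ ≤ _ := band hf hc hs hst
      _ ≤ _ := by
          rw [← hBm]
          exact mul_le_mul (measureReal_mono sub fB)
            (setIntegral_mono_set (int_g2 hf hc).integrableOn
              (Eventually.of_forall fun p => g2_nonneg f p) sub.eventuallyLE)
            (integral_nonneg fun p => g2_nonneg f p) measureReal_nonneg
  have hH := hR.Hn _ hm0 (hm.trans hS)
  have hQ := hR.Qn _ hm0 (hm.trans hS)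
  have hHQ := hR.HQ _ hm0 (hm.trans hS)
  have hinc := hR.inc _ _ hm0 hm hS
  have hl := hR.l0
  set E := ∫ p in B, g2 f p
  set m := mu f s - mu f t
  set T := s + b
  set τ := t - s
  have hτ : 0 < τ := by simp only [τ]; linarith
  have hm' : 0 ≤ m := by simp only [m]; linarith
  have k1 : 2 * T * τ * H (mu f t) ≤ E + T ^ 2 * Q (mu f t) * m := by
    refine abs_le_of_sq_le_sq' ?_ (by positivity) |>.2
    have h1 : (2 * T * τ * H (mu f t)) ^ 2 ≤ 4 * T ^ 2 * Q (mu f t) * (4 * π * τ ^ 2 * mu f t) := by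
      have := mul_le_mul_of_nonneg_left hHQ (show 0 ≤ 4 * T ^ 2 * τ ^ 2 by positivity)
      nlinarith
    have h2 := mul_le_mul_of_nonneg_left hband (show 0 ≤ 4 * T ^ 2 * Q (mu f t) by positivity)
    nlinarith [sq_nonneg (E - T ^ 2 * Q (mu f t) * m)]
  have k2 := mul_le_mul_of_nonneg_left hinc (sq_nonneg T)
  have k3 := mul_le_mul_of_nonneg_left hN2 hl
  have e : t + b = T + τ := by simp only [T, τ]; ring
  rw [hN] at k3
  rw [e] at k3 ⊢
  have k4 : 0 ≤ l * τ ^ 2 * m := by positivity
  nlinarith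

theorem level {b c : ℝ} (h0 : 0 ≤ c) (hb : 0 ≤ c + b) (hS : mu f c ≤ S) :
    l * (∫ p in U f c, (f p + b) ^ 2) ≤ (∫ p in U f c, g2 f p) + (c + b) ^ 2 * H (mu f c) := by
  obtain ⟨M, hM⟩ := hf.continuous.bounded_above_of_compact_support hc
  set L := M + 1 with hL
  have hM0 : 0 ≤ M := (norm_nonneg _).trans (hM 0)
  have hL0 : 0 < L := by linarith
  set Φ : ℝ → ℝ := fun t => (∫ p in U f t, g2 f p) - l * (∫ p in U f t, (f p + b) ^ 2) +
    (t + b) ^ 2 * H (mu f t) with hΦ
  have hl := hR.l0
  have key : ∀ n : ℕ, 0 < n → -(L ^ 2 * H (mu f c) + l * (2 * (c + L + b) * L) * mu f c) / n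
      ≤ Φ c := by
    intro n hn
    have hn' : (0 : ℝ) < n := by exact_mod_cast hn
    set τ := L / n with hτ
    have hτ0 : 0 < τ := by positivity
    have ind : ∀ k : ℕ, k ≤ n → Φ (c + k * τ) - k * τ ^ 2 * H (mu f c) -
        l * (2 * (c + L + b) * τ) * (mu f c - mu f (c + k * τ)) ≤ Φ c := by
      intro k
      induction k with
      | zero => intro _; simp
      | succ k ih =>
        intro hk
        have ih := ih (by omega)
        have hk0 : (0 : ℝ) ≤ k * τ := by positivity
        have hk1 : ((k : ℝ) + 1) * τ ≤ L := by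
          have : ((k : ℝ) + 1) ≤ n := by exact_mod_cast hk
          calc _ ≤ n * τ := by gcongr
            _ = L := by rw [hτ]; field_simp
        have m1 := mu_anti hc h0 (show c ≤ c + k * τ by linarith)
        have m2 := mu_anti hc (show 0 ≤ c + k * τ by linarith)
          (show c + k * τ ≤ c + (k + 1) * τ by linarith)
        have m3 := mu_nonneg f (c + (k + 1) * τ)
        have h1 := one_step hf hc hR (b := b) (s := c + k * τ) (t := c + (k + 1) * τ)
          (by linarith) (by linarith) (by linarith) (m1.trans hS)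
        have h2 : H (mu f (c + (k + 1) * τ)) ≤ H (mu f c) := by
          have := hR.inc _ _ m3 (m2.trans m1) hS
          have h3 := hR.Qn _ m3 ((m2.trans m1).trans hS)
          have : 0 ≤ (l + Q (mu f (c + (k + 1) * τ))) * (mu f c - mu f (c + (k + 1) * τ)) :=
            mul_nonneg (by linarith) (by linarith)
          linarith
        have e : c + (k + 1) * τ - (c + k * τ) = τ := by ring
        rw [e] at h1
        push_cast
        simp only [hΦ] at ih ⊢
        have h4 : l * (2 * (c + (k + 1) * τ + b) * τ) * (mu f (c + k * τ) - mu f (c + (k + 1) * τ))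
            ≤ l * (2 * (c + L + b) * τ) * (mu f (c + k * τ) - mu f (c + (k + 1) * τ)) := by
          gcongr
        have h5 := mul_le_mul_of_nonneg_left h2 (sq_nonneg τ)
        nlinarith
    have h1 := ind n le_rfl
    have e : (n : ℝ) * τ = L := by rw [hτ]; field_simp
    have hU : U f (c + L) = ∅ := by
      ext p
      simp only [U, mem_ofPred_eq, mem_empty_iff_false, iff_false, not_lt]
      have := hM p
      rw [Real.norm_eq_abs] at this
      linarith [le_abs_self (f p)]
    have hmu : mu f (c + L) = 0 := by simp [mu, hU]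
    have hΦ0 : Φ (c + L) = 0 := by simp [hΦ, hU, hmu, hR.H0]
    rw [e, hΦ0, hmu] at h1
    refine le_trans (le_of_eq ?_) h1
    rw [hτ]; field_simp; ring
  have ht : Tendsto (fun n : ℕ => -(L ^ 2 * H (mu f c) + l * (2 * (c + L + b) * L) * mu f c) / n)
      atTop (𝓝 0) := tendsto_const_div_atTop_nhds_zero_nat _
  have : 0 ≤ Φ c := le_of_tendsto ht (by
    filter_upwards [eventually_gt_atTop 0] with n hn using key n hn)
  simp only [hΦ] at this
  linarith

end

end Pool.Agent.MP_3d716e_an.H83
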