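import Pool.Agent.MP_3d716e_an.H83.Ricc

/-! Anisotropic twisted Faber-Krahn inequality applied to directional derivatives, and averaging
over four directions. -/

set_option autoImplicit false
open MeasureTheory Set Real Filter Topology

namespace Pool.Agent.MP_3d716e_an.H83

noncomputable def TL (a b c d : ℝ) : P →ₗ[ℝ] P :=
  Matrix.toLin (Module.Basis.finTwoProd ℝ) (Module.Basis.finTwoProd ℝ) !![a, b; c, d]

lemma TL_apply (a b c d : ℝ) (p : P) :
    TL a b c d p = (a * p.1 + b * p.2, c * p.1 + d * p.2) :=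
  Matrix.toLin_finTwoProd_apply a b c d p

lemma TL_det (a b c d : ℝ) : LinearMap.det (TL a b c d) = a * d - b * c := by
  rw [TL, LinearMap.det_toLin, Matrix.det_fin_two_of]

lemma aniso {w : P → ℝ} (hw : ContDiff ℝ 1 w) (hc : HasCompactSupport w)
    (h0 : ∫ p, w p = 0) {A : ℝ} (hA0 : 0 < A) (hA : volume.real {p | w p ≠ 0} ≤ A)
    {a b c d : ℝ} (hd : a * d - b * c = 1) :
    2 * π * 5.7822 * ∫ p, w p ^ 2 ≤
      A * ∫ p, ((a * dx w p + c * dy w p) ^ 2 + (b * dx w p + d * dy w p) ^ 2) := by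
  have hdet : LinearMap.det (TL a b c d) ≠ 0 := by rw [TL_det, hd]; exact one_ne_zero
  let e : P ≃L[ℝ] P := ((TL a b c d).equivOfDetNeZero hdet).toContinuousLinearEquiv
  have he : ∀ p, e p = TL a b c d p := fun p => rfl
  have hm : MeasurePreserving e volume volume := by
    refine ⟨e.continuous.measurable, ?_⟩
    have := Measure.map_linearMap_addHaar_eq_smul_addHaar (volume : Measure P) hdet
    rw [TL_det, hd] at this
    rw [show (⇑e : P → P) = TL a b c d from rfl]
    simpa using this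
  have hemb : MeasurableEmbedding e := e.toHomeomorph.measurableEmbedding
  have hW : ContDiff ℝ 1 fun p => w (e p) := hw.comp e.contDiff
  have hcW : HasCompactSupport fun p => w (e p) := hc.comp_homeomorph e.toHomeomorph
  have hI : ∀ F : P → ℝ, ∫ p, F (e p) = ∫ p, F p := fun F => hm.integral_comp hemb F
  have hv : volume.real {p | w (e p) ≠ 0} = volume.real {p | w p ≠ 0} := by
    have := hm.measure_preimage_emb hemb {p | w p ≠ 0}
    simp only [Measure.real]
    rw [← this]; rfl
  have h := twist_num hW hcW (by rw [hI w, h0]) hA0 (by rw [hv]; exact hA)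
  have hf : ∀ p v, fderiv ℝ (fun p => w (e p)) p v = fderiv ℝ w (e p) (e v) := fun p v => by
    have := e.comp_right_fderiv (f := w) (x := p)
    have h2 : (fun p => w (e p)) = w ∘ e := rfl
    rw [h2, this]; rfl
  have hg : ∀ p, g2 (fun p => w (e p)) p =
      (a * dx w (e p) + c * dy w (e p)) ^ 2 + (b * dx w (e p) + d * dy w (e p)) ^ 2 := fun p => by
    have e1 : e (1, 0) = (a, c) := by rw [he, TL_apply]; simp
    have e2 : e (0, 1) = (b, d) := by rw [he, TL_apply]; simp
    have f1 : dx (fun p => w (e p)) p = a * dx w (e p) + c * dy w (e p) := by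
      rw [dx, hf, e1, fd_apply]
    have f2 : dy (fun p => w (e p)) p = b * dx w (e p) + d * dy w (e p) := by
      rw [dy, hf, e2, fd_apply]
    rw [g2, f1, f2]
  simp only [hg] at h
  rw [hI (fun p => w p ^ 2),
    hI fun p => (a * dx w p + c * dy w p) ^ 2 + (b * dx w p + d * dy w p) ^ 2] at h
  exact h

lemma dirn {w : P → ℝ} (hw : ContDiff ℝ 1 w) (hc : HasCompactSupport w)
    (h0 : ∫ p, w p = 0) {A : ℝ} (hA0 : 0 < A) (hA : volume.real {p | w p ≠ 0} ≤ A)
    {c s n β : ℝ} (hn : c ^ 2 + s ^ 2 = n) (hn0 : 0 < n) (hβ : 0 < β) :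
    2 * π * 5.7822 * ∫ p, w p ^ 2 ≤
      A * ∫ p, (β / n * (c * dx w p + s * dy w p) ^ 2
        + 1 / (β * n) * (-s * dx w p + c * dy w p) ^ 2) := by
  set a := √(β / n) with ha
  have ha0 : 0 < a := by positivity
  have ha2 : a ^ 2 = β / n := sq_sqrt (by positivity)
  have hb2 : (1 / (n * a)) ^ 2 = 1 / (β * n) := by
    rw [div_pow, mul_pow, ha2]; field_simp
  have h := aniso hw hc h0 hA0 hA (a := a * c) (c := a * s) (b := -(1 / (n * a)) * s)
    (d := 1 / (n * a) * c) (by field_simp; linarith)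
  have e : ∀ p, (a * c * dx w p + a * s * dy w p) ^ 2 +
      (-(1 / (n * a)) * s * dx w p + 1 / (n * a) * c * dy w p) ^ 2 =
      β / n * (c * dx w p + s * dy w p) ^ 2
        + 1 / (β * n) * (-s * dx w p + c * dy w p) ^ 2 := fun p => by
    rw [← ha2, ← hb2]; ring
  simpa only [e] using h

lemma cd_dx {f : P → ℝ} {m n : WithTop ℕ∞} (hf : ContDiff ℝ n f) (h : m + 1 ≤ n) :
    ContDiff ℝ m (dx f) := (hf.fderiv_right h).clm_apply contDiff_const

lemma cd_dy {f : P → ℝ} {m n : WithTop ℕ∞} (hf : ContDiff ℝ n f) (h : m + 1 ≤ n) :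
    ContDiff ℝ m (dy f) := (hf.fderiv_right h).clm_apply contDiff_const

lemma cs_dx {f : P → ℝ} (hc : HasCompactSupport f) : HasCompactSupport (dx f) :=
  hc.fderiv_apply ℝ _

lemma cs_dy {f : P → ℝ} (hc : HasCompactSupport f) : HasCompactSupport (dy f) :=
  hc.fderiv_apply ℝ _

lemma fd_fd {f : P → ℝ} (hf : ContDiff ℝ 2 f) (p v v' : P) :
    fderiv ℝ (fun q => fderiv ℝ f q v) p v' = fderiv ℝ (fderiv ℝ f) p v' v := by
  have h : DifferentiableAt ℝ (fderiv ℝ f) p :=
    ((hf.fderiv_right (m := 1) (by norm_num)).differentiable one_ne_zero) p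
  rw [fderiv_clm_apply h (differentiableAt_const _)]
  simp

lemma symm_xy {f : P → ℝ} (hf : ContDiff ℝ 2 f) : dx (dy f) = dy (dx f) := by
  funext p
  have h := (hf.contDiffAt (x := p)).isSymmSndFDerivAt (by simp)
  have h1 : dx (dy f) p = fderiv ℝ (fun q => fderiv ℝ f q (0, 1)) p (1, 0) := rfl
  have h2 : dy (dx f) p = fderiv ℝ (fun q => fderiv ℝ f q (1, 0)) p (0, 1) := rfl
  rw [h1, h2, fd_fd hf, fd_fd hf]
  exact h.eq _ _

lemma imul {f g : P → ℝ} (hf : Continuous f) (hg : Continuous g) (hc : HasCompactSupport g) :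
    Integrable fun p => f p * g p :=
  (hf.mul hg).integrable_of_hasCompactSupport hc.mul_left

lemma iadd {f g : P → ℝ} (hf : Integrable f) (hg : Integrable g) :
    Integrable fun p => f p + g p := hf.add hg

lemma ibp {f g : P → ℝ} (hf : ContDiff ℝ 1 f) (hg : ContDiff ℝ 1 g) (hc : HasCompactSupport g)
    (v : P) : ∫ p, f p * fderiv ℝ g p v = -∫ p, fderiv ℝ f p v * g p :=
  integral_mul_fderiv_eq_neg_fderiv_mul_of_integrable
    (imul ((hf.continuous_fderiv one_ne_zero).clm_apply continuous_const) hg.continuous hc)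
    (imul hf.continuous ((hg.continuous_fderiv one_ne_zero).clm_apply continuous_const)
      (hc.fderiv_apply ℝ v))
    (imul hf.continuous hg.continuous hc)
    (fun x _ => hf.differentiable one_ne_zero x) (fun x _ => hg.differentiable one_ne_zero x)

lemma int_fd {g : P → ℝ} (hg : ContDiff ℝ 1 g) (hc : HasCompactSupport g) (v : P) :
    ∫ p, fderiv ℝ g p v = 0 := by
  simpa using ibp (f := fun _ => 1) contDiff_const hg hc v

lemma int_det {f : P → ℝ} (hf : ContDiff ℝ 3 f) (hc : HasCompactSupport f) :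
    ∫ p, dx (dx f) p * dy (dy f) p = ∫ p, dy (dx f) p * dy (dx f) p := by
  have hx : ContDiff ℝ 2 (dx f) := cd_dx hf (by norm_num)
  have hy : ContDiff ℝ 2 (dy f) := cd_dy hf (by norm_num)
  have h1 := ibp (f := dx f) (g := dy (dy f)) (hx.of_le (by norm_num)) (cd_dy hy (by norm_num))
    (cs_dy (cs_dy hc)) (1, 0)
  have h2 := ibp (f := dx f) (g := dx (dy f)) (hx.of_le (by norm_num)) (cd_dx hy (by norm_num))
    (cs_dx (cs_dy hc)) (0, 1)
  have h3 := symm_xy hy
  have h4 := symm_xy (hf.of_le (by norm_num))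
  change ∫ p, dx f p * dx (dy (dy f)) p = -∫ p, dx (dx f) p * dy (dy f) p at h1
  change ∫ p, dx f p * dy (dx (dy f)) p = -∫ p, dy (dx f) p * dx (dy f) p at h2
  rw [← h3, h1, h4] at h2
  linarith

theorem main_P {f : P → ℝ} (hf : ContDiff ℝ 3 f) (hc : HasCompactSupport f) {A : ℝ}
    (hA0 : 0 < A) (hA : volume.real (tsupport f) ≤ A) :
    41.95 * ∫ p, g2 f p ≤ A * ∫ p, (dx (dx f) p + dy (dy f) p) ^ 2 := by
  have hx : ContDiff ℝ 2 (dx f) := cd_dx hf (by norm_num)
  have hy : ContDiff ℝ 2 (dy f) := cd_dy hf (by norm_num)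
  have hx1 : ContDiff ℝ 1 (dx f) := hx.of_le (by norm_num)
  have hy1 : ContDiff ℝ 1 (dy f) := hy.of_le (by norm_num)
  have hf1 : ContDiff ℝ 1 f := hf.of_le (by norm_num)
  have h4 := symm_xy (hf.of_le (by norm_num))
  have key : ∀ c s n : ℝ, c ^ 2 + s ^ 2 = n → 0 < n →
      2 * π * 5.7822 * ∫ p, (c * dx f p + s * dy f p) ^ 2 ≤
      A * ∫ p, (15 / 26 / n * (c * (c * dx (dx f) p + s * dy (dx f) p)
          + s * (c * dy (dx f) p + s * dy (dy f) p)) ^ 2
        + 1 / (15 / 26 * n) * (-s * (c * dx (dx f) p + s * dy (dx f) p)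
          + c * (c * dy (dx f) p + s * dy (dy f) p)) ^ 2) := by
    intro c s n hn hn0
    have e0 : (fun p => c * dx f p + s * dy f p) = fun p => fderiv ℝ f p (c, s) := by
      funext p; rw [fd_apply]
    have hw : ContDiff ℝ 1 fun p => c * dx f p + s * dy f p :=
      (contDiff_const.mul hx1).add (contDiff_const.mul hy1)
    have hcw : HasCompactSupport fun p => c * dx f p + s * dy f p := by
      rw [e0]; exact hc.fderiv_apply ℝ _
    have h0 : ∫ p, (c * dx f p + s * dy f p) = 0 := by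
      rw [e0]; exact int_fd hf1 hc _
    have hs : volume.real {p | c * dx f p + s * dy f p ≠ 0} ≤ A := by
      refine le_trans (measureReal_mono (fun p hp => ?_) hc.isCompact.measure_lt_top.ne) hA
      apply support_fderiv_subset ℝ (f := f)
      intro h
      apply hp
      simp [dx, dy, h]
    have hd : ∀ p v, fderiv ℝ (fun p => c * dx f p + s * dy f p) p v =
        c * fderiv ℝ (dx f) p v + s * fderiv ℝ (dy f) p v := fun p v => by
      have d1 := hx1.differentiable one_ne_zero p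
      have d2 := hy1.differentiable one_ne_zero p
      rw [fderiv_fun_add (d1.const_mul c) (d2.const_mul s), fderiv_const_mul d1,
        fderiv_const_mul d2]
      simp
    have e1 : ∀ p, dx (fun p => c * dx f p + s * dy f p) p =
        c * dx (dx f) p + s * dy (dx f) p := fun p => by
      rw [← h4]; exact hd p _
    have e2 : ∀ p, dy (fun p => c * dx f p + s * dy f p) p =
        c * dy (dx f) p + s * dy (dy f) p := fun p => hd p _
    have h := dirn hw hcw h0 hA0 hs hn hn0 (β := 15 / 26) (by norm_num)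
    simpa only [e1, e2] using h
  set X := dx (dx f)
  set Y := dy (dx f)
  set Z := dy (dy f)
  have cX : Continuous X := cont_dx hx1
  have cY : Continuous Y := cont_dy hx1
  have cZ : Continuous Z := cont_dy hy1
  have sX : HasCompactSupport X := cs_dx (cs_dx hc)
  have sY : HasCompactSupport Y := cs_dy (cs_dx hc)
  have sZ : HasCompactSupport Z := cs_dy (cs_dy hc)
  have iXX := imul cX cX sX
  have iXY := imul cX cY sY
  have iXZ := imul cX cZ sZ
  have iYY := imul cY cY sY
  have iYZ := imul cY cZ sZ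
  have iZZ := imul cZ cZ sZ
  have ixx := imul hx.continuous hx.continuous (cs_dx hc)
  have ixy := imul hx.continuous hy.continuous (cs_dy hc)
  have iyy := imul hy.continuous hy.continuous (cs_dy hc)
  have q6 : ∀ (F : P → ℝ) (a b c d e g : ℝ), (∀ p, F p = a * (X p * X p) + b * (X p * Y p)
      + c * (X p * Z p) + d * (Y p * Y p) + e * (Y p * Z p) + g * (Z p * Z p)) →
      ∫ p, F p = a * (∫ p, X p * X p) + b * (∫ p, X p * Y p)
      + c * (∫ p, X p * Z p) + d * (∫ p, Y p * Y p) + e * (∫ p, Y p * Z p)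
      + g * (∫ p, Z p * Z p) := by
    intro F a b c d e g hF
    simp only [hF]
    have j1 := iXX.const_mul a
    have j2 := iXY.const_mul b
    have j3 := iXZ.const_mul c
    have j4 := iYY.const_mul d
    have j5 := iYZ.const_mul e
    have j6 := iZZ.const_mul g
    rw [integral_add (iadd (iadd (iadd (iadd j1 j2) j3) j4) j5) j6,
      integral_add (iadd (iadd (iadd j1 j2) j3) j4) j5, integral_add (iadd (iadd j1 j2) j3) j4,
      integral_add (iadd j1 j2) j3, integral_add j1 j2]
    simp only [integral_const_mul]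
  have q3 : ∀ (F : P → ℝ) (a b c : ℝ), (∀ p, F p = a * (dx f p * dx f p) + b * (dx f p * dy f p)
      + c * (dy f p * dy f p)) →
      ∫ p, F p = a * (∫ p, dx f p * dx f p) + b * (∫ p, dx f p * dy f p)
      + c * (∫ p, dy f p * dy f p) := by
    intro F a b c hF
    simp only [hF]
    have j1 := ixx.const_mul a
    have j2 := ixy.const_mul b
    have j3 := iyy.const_mul c
    rw [integral_add (iadd j1 j2) j3, integral_add j1 j2]
    simp only [integral_const_mul]
  have key2 : ∀ c s n : ℝ, c ^ 2 + s ^ 2 = n → 0 < n → ∀ x y : ℝ, x = 15 / 26 / n →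
      y = 1 / (15 / 26 * n) → 2 * π * 5.7822 * (c ^ 2 * (∫ p, dx f p * dx f p)
        + 2 * c * s * (∫ p, dx f p * dy f p) + s ^ 2 * (∫ p, dy f p * dy f p)) ≤
      A * ((x * c ^ 4 + y * (s * c) ^ 2) * (∫ p, X p * X p)
        + (x * (4 * c ^ 3 * s) - y * (2 * s * c * (c ^ 2 - s ^ 2))) * (∫ p, X p * Y p)
        + (x * (2 * (c * s) ^ 2) - y * (2 * (c * s) ^ 2)) * (∫ p, X p * Z p)
        + (x * (4 * (c * s) ^ 2) + y * (c ^ 2 - s ^ 2) ^ 2) * (∫ p, Y p * Y p)
        + (x * (4 * c * s ^ 3) + y * (2 * s * c * (c ^ 2 - s ^ 2))) * (∫ p, Y p * Z p)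
        + (x * s ^ 4 + y * (s * c) ^ 2) * (∫ p, Z p * Z p)) := by
    intro c s n hn hn0 x y ex ey
    have h := key c s n hn hn0
    rw [← ex, ← ey] at h
    rw [← q3 (fun p => (c * dx f p + s * dy f p) ^ 2) _ _ _ (fun p => by ring),
      ← q6 (fun p => x * (c * (c * X p + s * Y p) + s * (c * Y p + s * Z p)) ^ 2 +
        y * (-s * (c * X p + s * Y p) + c * (c * Y p + s * Z p)) ^ 2) _ _ _ _ _ _
        (fun p => by ring)]
    exact h
  have k1 := key2 1 0 1 (by norm_num) (by norm_num) (15 / 26) (26 / 15) (by norm_num) (by norm_num)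
  have k2 := key2 0 1 1 (by norm_num) (by norm_num) (15 / 26) (26 / 15) (by norm_num) (by norm_num)
  have k3 := key2 1 1 2 (by norm_num) (by norm_num) (15 / 52) (13 / 15) (by norm_num) (by norm_num)
  have k4 := key2 1 (-1) 2 (by norm_num) (by norm_num) (15 / 52) (13 / 15) (by norm_num)
    (by norm_num)
  have k5 : ∫ p, X p * Z p = ∫ p, Y p * Y p := int_det hf hc
  rw [q3 (g2 f) 1 0 1 (fun p => by unfold g2; ring),
    q6 (fun p => (X p + Z p) ^ 2) 1 0 2 0 0 1 (fun p => by ring)]
  have n1 : 0 ≤ ∫ p, dx f p * dx f p := integral_nonneg fun p => mul_self_nonneg _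
  have n2 : 0 ≤ ∫ p, dy f p * dy f p := integral_nonneg fun p => mul_self_nonneg _
  rw [k5] at k1 k2 k3 k4 ⊢
  have n3 := mul_le_mul_of_nonneg_right pi_gt_d6.le (add_nonneg n1 n2)
  linarith

end Pool.Agent.MP_3d716e_an.H83
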