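import Pool.Agent.MP_3d716e_an.H83.Twist

/-! An explicit Riccati supersolution and the numerical twisted Faber-Krahn inequality. -/

set_option autoImplicit false
open MeasureTheory Set Real Filter Topology

namespace Pool.Agent.MP_3d716e_an.H83

noncomputable def qq (v : ℝ) : ℝ := 0.30833 + 0.0054 * v + 0.000152 * v ^ 2 + 0.000005 * v ^ 3
noncomputable def pp (v : ℝ) : ℝ := 4 / (5.7825 - v) + qq v

lemma polyF {v : ℝ} (h0 : 0 ≤ v) (h1 : v ≤ 5.7825) :
    0 ≤ 4 - 2 * v * qq v + (5.7825 - v) *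
      ((0.30833 + 2 * 0.0054 * v + 3 * 0.000152 * v ^ 2 + 4 * 0.000005 * v ^ 3) - 1
        - v * qq v ^ 2 / 4) := by
  have h2 : 0 ≤ 5.7825 - v := by linarith
  have k : ∀ i j : ℕ, 0 ≤ v ^ i * (5.7825 - v) ^ j := fun i j => by positivity
  unfold qq
  linarith [k 0 8, k 1 7, k 2 6, k 3 5, k 4 4, k 5 3, k 6 2, k 7 1, k 8 0]

lemma qq_nonneg {v : ℝ} (h0 : 0 ≤ v) : 0 ≤ qq v := by unfold qq; positivity

lemma qq_le {v : ℝ} (h0 : 0 ≤ v) (h1 : v ≤ 6) : qq v ≤ 1 := by
  have h2 : v ^ 2 ≤ 6 ^ 2 := by gcongr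
  have h3 : v ^ 3 ≤ 6 ^ 3 := by gcongr
  unfold qq; linarith

lemma pp_nonneg {v : ℝ} (h0 : 0 ≤ v) (h1 : v < 5.7825) : 0 ≤ pp v := by
  have := qq_nonneg h0
  have : 0 < 5.7825 - v := by linarith
  unfold pp; positivity

lemma ric_inc {a b : ℝ} (h0 : 0 ≤ a) (hab : a ≤ b) (h1 : b < 5.7825) :
    (1 + a * pp a ^ 2 / 4) * (b - a) ≤ b * pp b - a * pp a := by
  have hb : 0 < 5.7825 - b := by linarith
  have ha : 0 < 5.7825 - a := by linarith
  have hd : 0 ≤ b - a := by linarith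
  set D : ℝ := 0.30833 + 2 * 0.0054 * a + 3 * 0.000152 * a ^ 2 + 4 * 0.000005 * a ^ 3 with hD
  have k1 : 1 + a * pp a ^ 2 / 4 ≤ 4 * 5.7825 / (5.7825 - a) ^ 2 + D := by
    have e : 4 * 5.7825 / (5.7825 - a) ^ 2 + D - (1 + a * pp a ^ 2 / 4) =
        (4 - 2 * a * qq a + (5.7825 - a) * (D - 1 - a * qq a ^ 2 / 4)) / (5.7825 - a) := by
      unfold pp; field_simp; ring
    have := div_nonneg (polyF h0 (by linarith)) ha.le
    rw [← hD, ← e] at this
    linarith
  have k2 : b * pp b - a * pp a - (4 * 5.7825 / (5.7825 - a) ^ 2 + D) * (b - a) =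
      (b - a) ^ 2 * (4 * 5.7825 / ((5.7825 - a) ^ 2 * (5.7825 - b)) + 0.0054
        + 0.000152 * (b + 2 * a) + 0.000005 * (b ^ 2 + 2 * a * b + 3 * a ^ 2)) := by
    rw [hD]; unfold pp qq; field_simp; ring
  have hb0 : 0 ≤ b := h0.trans hab
  have k3 : 0 ≤ (b - a) ^ 2 * (4 * 5.7825 / ((5.7825 - a) ^ 2 * (5.7825 - b)) + 0.0054
        + 0.000152 * (b + 2 * a) + 0.000005 * (b ^ 2 + 2 * a * b + 3 * a ^ 2)) := by positivity
  have := mul_le_mul_of_nonneg_right k1 hd
  linarith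

/-- Numerical twisted Faber-Krahn inequality. -/
theorem twist_num {w : P → ℝ} (hw : ContDiff ℝ 1 w) (hc : HasCompactSupport w)
    (h0 : ∫ p, w p = 0) {A : ℝ} (hA0 : 0 < A) (hA : volume.real {p | w p ≠ 0} ≤ A) :
    2 * π * 5.7822 * ∫ p, w p ^ 2 ≤ A * ∫ p, g2 w p := by
  have hπ := pi_pos
  set l : ℝ := 2 * π * 5.7822 / A with hl
  have hl0 : 0 < l := by positivity
  have hv0 : ∀ s, 0 ≤ s → 0 ≤ l * s / π := fun s hs => by positivity
  have hv1 : ∀ s, s ≤ A / 2 → l * s / π ≤ 5.7822 := fun s hs => by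
    calc l * s / π ≤ l * (A / 2) / π := by gcongr
      _ = 5.7822 := by rw [hl]; field_simp
  have hR : Ric l (A / 2) (fun s => π * (l * s / π * pp (l * s / π)))
      (fun s => l * (l * s / π * pp (l * s / π) ^ 2 / 4)) := by
    refine ⟨hl0.le, by simp, fun s hs hs' => ?_, fun s hs hs' => ?_, fun s hs hs' => ?_,
      fun a b ha hab hb => ?_⟩
    · have := pp_nonneg (hv0 s hs) (by linarith [hv1 s hs'])
      positivity
    · positivity
    · apply le_of_eq; field_simp
    · have h := ric_inc (hv0 a ha) (show l * a / π ≤ l * b / π by gcongr)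
        (by linarith [hv1 b hb])
      have h' := mul_le_mul_of_nonneg_left h hπ.le
      have e : (l + l * (l * a / π * pp (l * a / π) ^ 2 / 4)) * (b - a) =
          π * ((1 + l * a / π * pp (l * a / π) ^ 2 / 4) * (l * b / π - l * a / π)) := by
        field_simp
      rw [e]; linarith
  have h := twist hw hc h0 hR (by positivity) (fun s hs hs' => ?_) (by linarith)
  · have h' := mul_le_mul_of_nonneg_left h hA0.le
    have e : A * (l * ∫ p, w p ^ 2) = 2 * π * 5.7822 * ∫ p, w p ^ 2 := by rw [hl]; field_simp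
    linarith
  · have a0 := hv0 s hs
    have a1 := hv1 s hs'.le
    set v := l * s / π with hv
    have a2 : 0 < 5.7825 - v := by linarith
    have a3 := qq_le a0 (by linarith)
    have e1 : l * s = π * v := by rw [hv]; field_simp
    have e2 : A / 2 - s = A / 2 * (5.7822 - v) / 5.7822 := by
      rw [hv, hl]; field_simp
    have a4 : (v * pp v - v) * (5.7822 - v) ≤ 4 * 5.7822 := by
      have b1 : v * pp v - v ≤ v * (4 / (5.7825 - v)) := by
        unfold pp; nlinarith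
      have b2 : v * (4 / (5.7825 - v)) * (5.7822 - v) ≤ v * (4 / (5.7825 - v)) * (5.7825 - v) := by
        gcongr; norm_num
      have b3 : v * (4 / (5.7825 - v)) * (5.7825 - v) = 4 * v := by field_simp
      have b4 := mul_le_mul_of_nonneg_right b1 (show 0 ≤ 5.7822 - v by linarith)
      linarith
    rw [e1, e2]
    have e3 : (π * (v * pp v) - π * v) * (A / 2 * (5.7822 - v) / 5.7822) =
        π * (A / 2) / 5.7822 * ((v * pp v - v) * (5.7822 - v)) := by ring
    rw [e3]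
    calc _ ≤ π * (A / 2) / 5.7822 * (4 * 5.7822) := by gcongr
      _ = _ := by field_simp

end Pool.Agent.MP_3d716e_an.H83
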