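import Mathlib

/-! The sharp planar L1 Sobolev inequality, by a kernel identity in polar coordinates. -/

set_option autoImplicit false
open MeasureTheory Set Real Filter Topology

namespace Pool.Agent.MP_3d716e_an.H83

abbrev P := ℝ × ℝ

noncomputable def dx (f : P → ℝ) (p : P) : ℝ := fderiv ℝ f p (1, 0)
noncomputable def dy (f : P → ℝ) (p : P) : ℝ := fderiv ℝ f p (0, 1)
noncomputable def g2 (f : P → ℝ) (p : P) : ℝ := dx f p ^ 2 + dy f p ^ 2

lemma fd_apply (f : P → ℝ) (p : P) (a b : ℝ) :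
    fderiv ℝ f p (a, b) = a * dx f p + b * dy f p := by
  have : ((a, b) : P) = a • ((1, 0) : P) + b • ((0, 1) : P) := by simp
  rw [this, map_add, map_smul, map_smul]; simp [dx, dy]

lemma g2_nonneg (f : P → ℝ) (p : P) : 0 ≤ g2 f p := by unfold g2; positivity

lemma cont_dx {f : P → ℝ} (hf : ContDiff ℝ 1 f) : Continuous (dx f) :=
  (hf.continuous_fderiv one_ne_zero).clm_apply continuous_const

lemma cont_dy {f : P → ℝ} (hf : ContDiff ℝ 1 f) : Continuous (dy f) :=
  (hf.continuous_fderiv one_ne_zero).clm_apply continuous_const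

lemma cont_g2 {f : P → ℝ} (hf : ContDiff ℝ 1 f) : Continuous (g2 f) :=
  ((cont_dx hf).pow 2).add ((cont_dy hf).pow 2)

lemma exists_R {f : P → ℝ} (hc : HasCompactSupport f) :
    ∃ R : ℝ, 0 < R ∧ ∀ p : P, R < ‖p‖ → f p = 0 ∧ dx f p = 0 ∧ dy f p = 0 := by
  obtain ⟨R, hR⟩ := hc.isCompact.isBounded.subset_closedBall (0 : P)
  refine ⟨max R 1, by positivity, fun p hp => ?_⟩
  have h1 : p ∉ tsupport f := fun h => by
    have := hR h
    simp only [Metric.mem_closedBall, dist_zero_right] at this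
    linarith [le_max_left R 1]
  have h2 : fderiv ℝ f p = 0 := by
    by_contra h
    exact h1 (support_fderiv_subset ℝ (f := f) h)
  exact ⟨image_eq_zero_of_notMem_tsupport h1, by simp [dx, h2], by simp [dy, h2]⟩

lemma cs_of_R {f : P → ℝ} {R : ℝ} (h : ∀ p : P, R < ‖p‖ → f p = 0) : HasCompactSupport f := by
  refine HasCompactSupport.intro (isCompact_closedBall (0 : P) R) fun p hp => h p ?_
  simpa using hp

lemma cs_g2 {f : P → ℝ} (hc : HasCompactSupport f) : HasCompactSupport (g2 f) := by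
  obtain ⟨R, -, hR⟩ := exists_R hc
  exact cs_of_R (R := R) fun p hp => by simp [g2, (hR p hp).2.1, (hR p hp).2.2]

lemma int_g2 {f : P → ℝ} (hf : ContDiff ℝ 1 f) (hc : HasCompactSupport f) :
    Integrable (g2 f) := (cont_g2 hf).integrable_of_hasCompactSupport (cs_g2 hc)

/-- the polar offset -/
noncomputable def po (q : P) : P := (q.1 * cos q.2, q.1 * sin q.2)

lemma cont_po : Continuous po := by unfold po; fun_prop

lemma norm_po (q : P) (hq : 0 ≤ q.1) : q.1 / 2 ≤ ‖po q‖ := by
  have h1 : |q.1 * cos q.2| ≤ ‖po q‖ := norm_fst_le (po q)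
  have h2 : |q.1 * sin q.2| ≤ ‖po q‖ := norm_snd_le (po q)
  rw [abs_mul, abs_of_nonneg hq] at h1 h2
  have h3 : 1 ≤ |cos q.2| + |sin q.2| := by
    have := sin_sq_add_cos_sq q.2
    have h4 := abs_nonneg (cos q.2)
    have h5 := abs_nonneg (sin q.2)
    nlinarith [sq_abs (cos q.2), sq_abs (sin q.2)]
  nlinarith

def T : Set P := Ioi (0 : ℝ) ×ˢ Ioo (-π) π

lemma meas_T : MeasurableSet T := measurableSet_Ioi.prod measurableSet_Ioo

lemma intT {Φ : P → ℝ} (hΦ : Continuous Φ) {R : ℝ} (h : ∀ q : P, R < q.1 → Φ q = 0) :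
    IntegrableOn Φ T := by
  have hK : IsCompact (Icc (0 : ℝ) R ×ˢ Icc (-π) π) := isCompact_Icc.prod isCompact_Icc
  refine (hΦ.continuousOn.integrableOn_compact hK).of_forall_sdiff_eq_zero meas_T ?_
  rintro q ⟨⟨h1, h2⟩, h3⟩
  apply h
  by_contra h4
  exact h3 ⟨⟨le_of_lt h1, not_lt.1 h4⟩, Ioo_subset_Icc_self h2⟩

lemma intT2 {Φ : P × P → ℝ} (hΦ : Continuous Φ) {R R' : ℝ}
    (h : ∀ x q : P, R < ‖x‖ ∨ R' < q.1 → Φ (x, q) = 0) :
    Integrable Φ ((volume : Measure P).prod (volume.restrict T)) := by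
  have hK : IsCompact (Metric.closedBall (0 : P) R ×ˢ (Icc (0 : ℝ) R' ×ˢ Icc (-π) π)) :=
    (isCompact_closedBall _ _).prod (isCompact_Icc.prod isCompact_Icc)
  have h1 : IntegrableOn Φ (univ ×ˢ T) ((volume : Measure P).prod volume) := by
    refine (hΦ.continuousOn.integrableOn_compact hK).of_forall_sdiff_eq_zero
      (MeasurableSet.univ.prod meas_T) ?_
    rintro ⟨x, q⟩ ⟨⟨-, h1, h2⟩, h3⟩
    apply h
    by_contra h4
    push Not at h4
    exact h3 ⟨by simpa using h4.1, ⟨le_of_lt h1, h4.2⟩, Ioo_subset_Icc_self h2⟩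
  rw [IntegrableOn, ← Measure.prod_restrict, Measure.restrict_univ] at h1
  exact h1

lemma restrT : (volume : Measure P).restrict T =
    (volume.restrict (Ioi (0 : ℝ))).prod (volume.restrict (Ioo (-π) π)) := by
  rw [Measure.prod_restrict]; rfl

lemma ftc_r {F F' : ℝ → ℝ} (hF : ∀ r, HasDerivAt F (F' r) r) (hc : Continuous F') {R : ℝ}
    (h : ∀ r, R < r → F r = 0 ∧ F' r = 0) : ∫ r in Ioi (0 : ℝ), F' r = -F 0 := by
  have hi : IntegrableOn F' (Ioi 0) := by
    refine (hc.continuousOn.integrableOn_compact (isCompact_Icc (a := 0) (b := R))).of_forall_sdiff_eq_zero measurableSet_Ioi ?_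
    rintro r ⟨h1, h2⟩
    refine (h r ?_).2
    by_contra h4
    exact h2 ⟨le_of_lt h1, not_lt.1 h4⟩
  have ht : Tendsto F atTop (𝓝 0) := by
    refine tendsto_const_nhds.congr' ?_
    filter_upwards [eventually_gt_atTop R] with r hr using (h r hr).1.symm
  rw [integral_Ioi_of_hasDerivAt_of_tendsto' (fun r _ => hF r) hi ht]; simp

lemma ftc_t {F F' : ℝ → ℝ} (hF : ∀ r, HasDerivAt F (F' r) r) (hc : Continuous F') :
    ∫ r in Ioo (-π) π, F' r = F π - F (-π) := by
  rw [← integral_Ioc_eq_integral_Ioo, ← intervalIntegral.integral_of_le (by linarith [pi_pos])]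
  exact intervalIntegral.integral_eq_sub_of_hasDerivAt (fun r _ => hF r)
    (hc.intervalIntegrable _ _)

lemma hd_comp {g : P → ℝ} (hg : ContDiff ℝ 1 g) {γ : ℝ → P} {a b t : ℝ}
    (h : HasDerivAt γ (a, b) t) :
    HasDerivAt (fun t => g (γ t)) (a * dx g (γ t) + b * dy g (γ t)) t := by
  rw [← fd_apply]
  exact ((hg.differentiable one_ne_zero) (γ t)).hasFDerivAt.comp_hasDerivAt t h

lemma hd_r (x : P) (r θ : ℝ) :
    HasDerivAt (fun r => x + po (r, θ)) (cos θ, sin θ) r := by
  have : HasDerivAt (fun r : ℝ => po (r, θ)) (cos θ, sin θ) r := by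
    unfold po
    exact HasDerivAt.prodMk (by simpa using (hasDerivAt_id r).mul_const (cos θ))
      (by simpa using (hasDerivAt_id r).mul_const (sin θ))
  exact this.const_add x

lemma hd_r' (x : P) (r θ : ℝ) :
    HasDerivAt (fun r => x - po (r, θ)) (-cos θ, -sin θ) r := by
  have : HasDerivAt (fun r : ℝ => po (r, θ)) (cos θ, sin θ) r := by
    simpa using hd_r 0 r θ
  simpa using this.const_sub x

lemma hd_t (x : P) (r θ : ℝ) :
    HasDerivAt (fun θ => x + po (r, θ)) (r * (-sin θ), r * cos θ) θ := by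
  have : HasDerivAt (fun θ : ℝ => po (r, θ)) (r * (-sin θ), r * cos θ) θ := by
    unfold po
    exact HasDerivAt.prodMk ((hasDerivAt_cos θ).const_mul r) ((hasDerivAt_sin θ).const_mul r)
  exact this.const_add x

lemma far_add {R : ℝ} (hR : 0 < R) (x q : P) (hq : 2 * (R + ‖x‖) < q.1) : R < ‖x + po q‖ := by
  have h0 : 0 ≤ q.1 := by linarith [norm_nonneg x]
  have h1 := norm_po q h0
  have h2 : ‖po q‖ ≤ ‖x + po q‖ + ‖x‖ := by
    calc ‖po q‖ = ‖(x + po q) - x‖ := by simp
      _ ≤ _ := norm_sub_le _ _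
  linarith

lemma far_sub {R : ℝ} (hR : 0 < R) (x q : P) (hq : 2 * (R + ‖x‖) < q.1) : R < ‖x - po q‖ := by
  have := far_add hR (-x) q (by simpa using hq)
  rwa [← norm_neg, neg_add, neg_neg, ← sub_eq_add_neg] at this

/-- Step 1: integration by parts in polar coordinates. -/
lemma step1 {g : P → ℝ} (hg : ContDiff ℝ 1 g) (hc : HasCompactSupport g) (x : P) (a b : ℝ) :
    |2 * ∫ q in T, (a * cos q.2 + b * sin q.2) * g (x + po q)| ≤
      √(a ^ 2 + b ^ 2) * ∫ p, √(g2 g p) := by
  obtain ⟨R, hR0, hR⟩ := exists_R hc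
  have cg := hg.continuous
  have cx := cont_dx hg
  have cy := cont_dy hg
  have cp := cont_po
  set A : P → ℝ := fun q => (a * cos q.2 + b * sin q.2) *
    (g (x + po q) + q.1 * (cos q.2 * dx g (x + po q) + sin q.2 * dy g (x + po q))) with hA
  set B : P → ℝ := fun q =>
    (q.1 * (-sin q.2) * dx g (x + po q) + q.1 * cos q.2 * dy g (x + po q)) *
      (-a * sin q.2 + b * cos q.2) + g (x + po q) * (-a * cos q.2 + b * (-sin q.2)) with hB
  have cA : Continuous A := by rw [hA]; fun_prop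
  have cB : Continuous B := by rw [hB]; fun_prop
  have iA : IntegrableOn A T := intT cA (R := 2 * (R + ‖x‖)) fun q hq => by
    obtain ⟨h1, h2, h3⟩ := hR _ (far_add hR0 x q hq)
    simp [hA, h1, h2, h3]
  have iB : IntegrableOn B T := intT cB (R := 2 * (R + ‖x‖)) fun q hq => by
    obtain ⟨h1, h2, h3⟩ := hR _ (far_add hR0 x q hq)
    simp [hB, h1, h2, h3]
  have zA : ∫ q in T, A q = 0 := by
    have iA' := iA
    rw [IntegrableOn, restrT] at iA'
    rw [restrT, integral_prod_symm _ iA']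
    have : ∀ θ : ℝ, ∫ r in Ioi (0 : ℝ), A (r, θ) = 0 := fun θ => by
      have := ftc_r (F := fun r => (a * cos θ + b * sin θ) * (r * g (x + po (r, θ))))
        (F' := fun r => A (r, θ)) (R := 2 * (R + ‖x‖)) (fun r => by
          have h := ((hasDerivAt_id r).mul (hd_comp hg (hd_r x r θ))).const_mul
            (a * cos θ + b * sin θ)
          refine h.congr_deriv ?_
          simp [hA]) (by fun_prop) (fun r hr => by
          obtain ⟨h1, h2, h3⟩ := hR _ (far_add hR0 x (r, θ) hr)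
          simp [hA, h1, h2, h3])
      simpa using this
    simp [this]
  have zB : ∫ q in T, B q = 0 := by
    have iB' := iB
    rw [IntegrableOn, restrT] at iB'
    rw [restrT, integral_prod _ iB']
    have : ∀ r : ℝ, ∫ θ in Ioo (-π) π, B (r, θ) = 0 := fun r => by
      have := ftc_t (F := fun θ => g (x + po (r, θ)) * (-a * sin θ + b * cos θ))
        (F' := fun θ => B (r, θ)) (fun θ => by
          have h := (hd_comp hg (hd_t x r θ)).mul
            (((hasDerivAt_sin θ).const_mul (-a)).add ((hasDerivAt_cos θ).const_mul b))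
          refine h.congr_deriv ?_
          simp [hB]) (by fun_prop)
      rw [this]; simp [po]
    simp [this]
  set K : P → ℝ := fun q => q.1 * ((a * cos q.2 + b * sin q.2) *
    (cos q.2 * dx g (x + po q) + sin q.2 * dy g (x + po q)) -
    (-a * sin q.2 + b * cos q.2) * (-sin q.2 * dx g (x + po q) + cos q.2 * dy g (x + po q)))
    with hK
  have iK : IntegrableOn K T := intT (by rw [hK]; fun_prop) (R := 2 * (R + ‖x‖)) fun q hq => by
    obtain ⟨h1, h2, h3⟩ := hR _ (far_add hR0 x q hq)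
    simp [hK, h2, h3]
  have e1 : 2 * ∫ q in T, (a * cos q.2 + b * sin q.2) * g (x + po q) = -∫ q in T, K q := by
    rw [← integral_const_mul, ← zero_sub, ← sub_zero (0 : ℝ)]
    nth_rewrite 1 [← zA]
    nth_rewrite 1 [← zB]
    have iAB : IntegrableOn (fun q => A q - B q) T := iA.sub iB
    rw [← integral_sub iA iB, ← integral_sub iAB iK]
    refine integral_congr_ae (Eventually.of_forall fun q => ?_)
    simp only [hA, hB, hK]; ring
  rw [e1, abs_neg]
  have e2 : ∫ p, √(g2 g p) = ∫ q in T, q.1 * √(g2 g (x + po q)) := by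
    rw [← integral_add_left_eq_self (fun p => √(g2 g p)) x, ← integral_comp_polarCoord_symm]
    rfl
  rw [e2, ← integral_const_mul]
  have cg2 := cont_g2 hg
  have iN : IntegrableOn (fun q : P => √(a ^ 2 + b ^ 2) * (q.1 * √(g2 g (x + po q)))) T :=
    intT (by fun_prop) (R := 2 * (R + ‖x‖)) fun q hq => by
      obtain ⟨h1, h2, h3⟩ := hR _ (far_add hR0 x q hq)
      simp [g2, h2, h3]
  refine (abs_integral_le_integral_abs).trans (setIntegral_mono_on iK.abs iN meas_T ?_)
  intro q hq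
  have hq0 : 0 ≤ q.1 := le_of_lt hq.1
  simp only [hK]
  rw [abs_mul, abs_of_nonneg hq0, mul_left_comm]
  refine mul_le_mul_of_nonneg_left ?_ hq0
  rw [← sqrt_mul (by positivity)]
  apply abs_le_sqrt
  have h1 := sin_sq_add_cos_sq q.2
  unfold g2
  set c := cos q.2
  set s := sin q.2
  set u := dx g (x + po q)
  set v := dy g (x + po q)
  have h2 : (a ^ 2 + b ^ 2) * (u ^ 2 + v ^ 2) =
      ((a * c + b * s) ^ 2 + (-a * s + b * c) ^ 2) * ((c * u + s * v) ^ 2 + (-s * u + c * v) ^ 2) := by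
    have : (a ^ 2 + b ^ 2) * (u ^ 2 + v ^ 2) = (a ^ 2 + b ^ 2) * (u ^ 2 + v ^ 2) * (s ^ 2 + c ^ 2) ^ 2 := by
      rw [h1]; ring
    rw [this]; ring
  rw [h2]
  nlinarith [sq_nonneg ((a * c + b * s) * (-s * u + c * v) + (-a * s + b * c) * (c * u + s * v))]

/-- Sharp L1 Sobolev inequality in the plane. -/
theorem sobolev {g : P → ℝ} (hg : ContDiff ℝ 1 g) (hc : HasCompactSupport g) :
    4 * π * ∫ p, g p ^ 2 ≤ (∫ p, √(g2 g p)) ^ 2 := by
  obtain ⟨R, hR0, hR⟩ := exists_R hc
  have cg := hg.continuous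
  have cx := cont_dx hg
  have cy := cont_dy hg
  have cp := cont_po
  have cg2 := cont_g2 hg
  set Ψ : P × P → ℝ := fun z => (dx g z.1 * cos z.2.2 + dy g z.1 * sin z.2.2) * g (z.1 + po z.2)
    with hΨ
  set Ψ' : P × P → ℝ := fun z =>
    (dx g (z.1 - po z.2) * cos z.2.2 + dy g (z.1 - po z.2) * sin z.2.2) * g z.1 with hΨ'
  have iΨ := intT2 (Φ := Ψ) (by rw [hΨ]; fun_prop) (R := R) (R' := 4 * R) fun x q h => by
    by_cases hx : R < ‖x‖
    · simp [hΨ, (hR x hx).2.1, (hR x hx).2.2]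
    · have h' : 4 * R < q.1 := by tauto
      simp [hΨ, (hR _ (far_add hR0 x q (by linarith [not_lt.1 hx]))).1]
  have iΨ' := intT2 (Φ := Ψ') (by rw [hΨ']; fun_prop) (R := R) (R' := 4 * R) fun x q h => by
    by_cases hx : R < ‖x‖
    · simp [hΨ', (hR x hx).1]
    · have h' : 4 * R < q.1 := by tauto
      obtain ⟨-, h2, h3⟩ := hR _ (far_sub hR0 x q (by linarith [not_lt.1 hx]))
      simp [hΨ', h2, h3]
  have e1 : ∫ x, ∫ q in T, Ψ (x, q) = ∫ x, ∫ q in T, Ψ' (x, q) := by
    rw [← integral_prod _ iΨ, ← integral_prod _ iΨ', integral_prod_symm _ iΨ,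
      integral_prod_symm _ iΨ']
    refine integral_congr_ae (Eventually.of_forall fun q => ?_)
    simp only [hΨ, hΨ']
    rw [← integral_sub_right_eq_self _ (po q)]
    simp
  have e2 : ∀ x, ∫ q in T, Ψ' (x, q) = 2 * π * g x ^ 2 := fun x => by
    simp only [hΨ']
    rw [integral_mul_const]
    have i1 : IntegrableOn (fun q : P => dx g (x - po q) * cos q.2 + dy g (x - po q) * sin q.2) T :=
      intT (by fun_prop) (R := 2 * (R + ‖x‖)) fun q hq => by
        obtain ⟨-, h2, h3⟩ := hR _ (far_sub hR0 x q hq)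
        simp [h2, h3]
    rw [IntegrableOn, restrT] at i1
    rw [restrT, integral_prod_symm _ i1]
    have : ∀ θ : ℝ, ∫ r in Ioi (0 : ℝ),
        (dx g (x - po (r, θ)) * cos θ + dy g (x - po (r, θ)) * sin θ) = g x := fun θ => by
      have := ftc_r (F := fun r => -g (x - po (r, θ)))
        (F' := fun r => dx g (x - po (r, θ)) * cos θ + dy g (x - po (r, θ)) * sin θ)
        (R := 2 * (R + ‖x‖)) (fun r => by
          have h := (hd_comp hg (hd_r' x r θ)).neg
          refine h.congr_deriv ?_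
          ring) (by fun_prop) (fun r hr => by
          obtain ⟨h1, h2, h3⟩ := hR _ (far_sub hR0 x (r, θ) hr)
          simp [h1, h2, h3])
      rw [this, show po (0, θ) = 0 by simp [po]]; simp
    simp only [this]
    rw [setIntegral_const, Real.volume_real_Ioo_of_le (by linarith [pi_pos])]
    simp; ring
  have iN : Integrable fun p => √(g2 g p) :=
    (by fun_prop : Continuous fun p => √(g2 g p)).integrable_of_hasCompactSupport
      (cs_of_R (R := R) fun p hp => by simp [g2, (hR p hp).2.1, (hR p hp).2.2])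
  have e3 : 4 * π * ∫ p, g p ^ 2 = ∫ x, 2 * ∫ q in T, Ψ (x, q) := by
    rw [integral_const_mul, e1]
    simp only [e2]
    rw [integral_const_mul]; ring
  rw [e3, sq, ← integral_mul_const]
  refine integral_mono (iΨ.integral_prod_left.const_mul 2) (iN.mul_const _) fun x => ?_
  exact (le_abs_self _).trans (step1 hg hc x (dx g x) (dy g x))

end Pool.Agent.MP_3d716e_an.H83
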