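import Pool.Agent.MP_3d716e_an.H83.Level

/-! The twisted Faber-Krahn inequality (functions of mean zero). -/

set_option autoImplicit false
open MeasureTheory Set Real Filter Topology

namespace Pool.Agent.MP_3d716e_an.H83

lemma g2_neg (w : P → ℝ) (p : P) : g2 (fun p => -w p) p = g2 w p := by
  simp only [g2, dx, dy, fderiv_fun_neg]
  simp

lemma median {w : P → ℝ} (hw : Continuous w) (hc : HasCompactSupport w) {S : ℝ} (hS : 0 ≤ S) :
    ∃ a, 0 ≤ a ∧ mu w a ≤ S ∧ ∀ t, 0 ≤ t → t < a → S < mu w t := by
  obtain ⟨M, hM⟩ := hw.bounded_above_of_compact_support hc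
  set Z : Set ℝ := {t | 0 ≤ t ∧ mu w t ≤ S}
  have hb : BddBelow Z := ⟨0, fun t ht => ht.1⟩
  have hne : Z.Nonempty := by
    refine ⟨M, (norm_nonneg _).trans (hM 0), ?_⟩
    have hU : U w M = ∅ := by
      ext p
      simp only [U, mem_ofPred_eq, mem_empty_iff_false, iff_false, not_lt]
      exact (le_abs_self _).trans (hM p)
    simpa [mu, hU] using hS
  have h0 : 0 ≤ sInf Z := le_csInf hne fun t ht => ht.1
  refine ⟨sInf Z, h0, ?_, fun t ht hta => ?_⟩
  · have hU : U w (sInf Z) = ⋃ n : ℕ, U w (sInf Z + 1 / ((n : ℝ) + 1)) := by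
      ext p
      simp only [U, mem_ofPred_eq, mem_iUnion]
      constructor
      · intro h
        obtain ⟨n, hn⟩ := exists_nat_one_div_lt (sub_pos.2 h)
        exact ⟨n, by linarith⟩
      · rintro ⟨n, hn⟩
        have : (0 : ℝ) < 1 / ((n : ℝ) + 1) := by positivity
        linarith
    have hmono : Monotone fun n : ℕ => U w (sInf Z + 1 / ((n : ℝ) + 1)) := fun m n hmn => by
      apply U_anti
      have : (m : ℝ) ≤ n := by exact_mod_cast hmn
      gcongr
    have hle : volume (U w (sInf Z)) ≤ ENNReal.ofReal S := by
      rw [hU, hmono.measure_iUnion]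
      refine iSup_le fun n => ?_
      have hp : (0 : ℝ) < 1 / ((n : ℝ) + 1) := by positivity
      obtain ⟨t, ht, hlt⟩ := exists_lt_of_csInf_lt hne
        (show sInf Z < sInf Z + 1 / ((n : ℝ) + 1) by linarith)
      have h1 := (mu_anti hc ht.1 hlt.le).trans ht.2
      rw [← ofReal_measureReal (fin_U hc (by linarith))]
      exact ENNReal.ofReal_le_ofReal h1
    exact ENNReal.toReal_le_of_le_ofReal hS hle
  · by_contra h
    have := csInf_le hb (show t ∈ Z from ⟨ht, not_lt.1 h⟩)
    linarith

lemma twist_aux {w : P → ℝ} (hw : ContDiff ℝ 1 w) (hc : HasCompactSupport w)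
    (h0 : ∫ p, w p = 0) {l S : ℝ} {H Q : ℝ → ℝ} (hR : Ric l S H Q) (hS : 0 < S)
    (h3 : ∀ s, 0 ≤ s → s < S → (H s - l * s) * (S - s) ≤ 4 * π * S)
    (hA : volume.real {p | w p ≠ 0} ≤ 2 * S) (hn : mu (fun p => -w p) 0 ≤ S) :
    l * ∫ p, w p ^ 2 ≤ ∫ p, g2 w p := by
  have cw := hw.continuous
  obtain ⟨a, ha, hmu, hlt⟩ := median cw hc hS.le
  have hc' : HasCompactSupport fun p => -w p := hc.neg
  have k1 := level hw hc hR (b := -a) (c := a) ha (by simp) hmu
  have k2 := level hw.neg hc' hR (b := a) (c := 0) le_rfl (by simpa using ha) hn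
  simp only [g2_neg, add_neg_cancel, zero_add] at k1 k2
  set V := U (fun p => -w p) 0 with hV
  set A2 := mu (fun p => -w p) 0 with hA2
  have hA20 : 0 ≤ A2 := mu_nonneg _ _
  set B : Set P := {p | 0 < w p ∧ w p < a} with hB
  have mB : MeasurableSet B :=
    (measurableSet_lt measurable_const cw.measurable).inter
      (measurableSet_lt cw.measurable measurable_const)
  have mV : MeasurableSet V := meas_U cw.neg 0
  have mU := meas_U cw a
  have fV : volume V ≠ ⊤ := fin_U hc' le_rfl
  have fU := fin_U hc ha
  have ig := int_g2 hw hc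
  have hEB : 0 ≤ ∫ p in B, g2 w p := integral_nonneg fun p => g2_nonneg w p
  have k3 : a ^ 2 * (H A2 - l * A2) ≤ ∫ p in B, g2 w p := by
    rcases ha.eq_or_lt with h | ha'
    · rw [← h]; simpa using hEB
    have key : ∀ t, 0 < t → t < a → 4 * π * t ^ 2 * S ≤ (S - A2) * ∫ p in B, g2 w p := by
      intro t ht hta
      set C : Set P := {p | 0 < w p ∧ w p < t} with hC
      have mC : MeasurableSet C :=
        (measurableSet_lt measurable_const cw.measurable).inter
          (measurableSet_lt cw.measurable measurable_const)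
      have fC : volume C ≠ ⊤ := fin_of_sub hc fun p hp => hp.1.ne'
      have h1 := band hw hc le_rfl ht
      have h2 : S ≤ volume.real {p | t ≤ w p} :=
        (hlt t ht.le hta).le.trans (measureReal_mono (fun p (hp : t < w p) => show t ≤ w p from hp.le)
          (fin_of_sub hc fun p hp => by
            have : t ≤ w p := hp
            linarith))
      have h4 : volume.real C ≤ S - A2 := by
        have d1 : Disjoint (U w t) C := disjoint_left.2 fun p (hp : t < w p) hq => by
          linarith [hq.2]
        have d2 : Disjoint (U w t ∪ C) V := disjoint_left.2 fun p hp (hq : 0 < -w p) => by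
          rcases hp with hp | hp
          · have : t < w p := hp
            linarith
          · linarith [hp.1]
        have e1 := measureReal_union d1 mC (fin_U hc ht.le) fC
        have e2 := measureReal_union d2 mV (measure_union_ne_top (fin_U hc ht.le) fC) fV
        have e3 : volume.real (U w t ∪ C ∪ V) ≤ volume.real {p | w p ≠ 0} := by
          refine measureReal_mono ?_ (fin_of_sub hc fun p hp => hp)
          rintro p ((hp | hp) | hp)
          · have : t < w p := hp
            exact (by linarith : 0 < w p).ne'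
          · exact hp.1.ne'
          · have : 0 < -w p := hp
            exact (by linarith : w p < 0).ne
        have e4 := hlt t ht.le hta
        have e5 : A2 = volume.real V := rfl
        unfold mu at e4
        linarith
      have h5 : ∫ p in C, g2 w p ≤ ∫ p in B, g2 w p :=
        setIntegral_mono_set ig.integrableOn (Eventually.of_forall fun p => g2_nonneg w p)
          (LE.le.eventuallyLE fun p hp => ⟨hp.1, hp.2.trans hta⟩)
      calc 4 * π * t ^ 2 * S ≤ 4 * π * (t - 0) ^ 2 * volume.real {p | t ≤ w p} := by
            rw [sub_zero]; gcongr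
        _ ≤ _ := h1
        _ ≤ _ := mul_le_mul h4 h5 (integral_nonneg fun p => g2_nonneg w p) (by linarith)
    have ht : Tendsto (fun t : ℝ => 4 * π * t ^ 2 * S) (𝓝[<] a) (𝓝 (4 * π * a ^ 2 * S)) :=
      (Continuous.tendsto (by fun_prop) a).mono_left nhdsWithin_le_nhds
    have k4 : 4 * π * a ^ 2 * S ≤ (S - A2) * ∫ p in B, g2 w p := le_of_tendsto ht (by
      filter_upwards [Ioo_mem_nhdsLT ha'] with t ht using key t ht.1 ht.2)
    have hpos : 0 < 4 * π * a ^ 2 * S := by have := pi_pos; positivity
    have hD : 0 < S - A2 := by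
      rcases hn.eq_or_lt with h | h
      · rw [h] at k4; simp at k4; linarith
      · linarith
    have h6 := mul_le_mul_of_nonneg_left (h3 A2 hA20 (by linarith)) (sq_nonneg a)
    refine le_of_mul_le_mul_left ?_ hD
    nlinarith
  have iw : Integrable w := cw.integrable_of_hasCompactSupport hc
  have i1 := int_sq cw hc (-a) fU
  have i2 : IntegrableOn (fun p => (-w p + a) ^ 2) V := int_sq cw.neg hc' a fV
  have i3 : IntegrableOn (fun _ : P => a ^ 2) V := integrableOn_const fV
  have k5 : ∫ p, w p ^ 2 ≤ (∫ p in U w a, (w p + -a) ^ 2) + (∫ p in V, (-w p + a) ^ 2)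
      - a ^ 2 * A2 := by
    have j1 := (integrable_indicator_iff mU).2 i1
    have j2 := (integrable_indicator_iff mV).2 i2
    have j3 := (integrable_indicator_iff mV).2 i3
    have j4 := iw.const_mul (2 * a)
    have j12 : Integrable fun p => (U w a).indicator (fun p => (w p + -a) ^ 2) p +
      V.indicator (fun p => (-w p + a) ^ 2) p := j1.add j2
    have j123 : Integrable fun p => (U w a).indicator (fun p => (w p + -a) ^ 2) p +
      V.indicator (fun p => (-w p + a) ^ 2) p - V.indicator (fun _ => a ^ 2) p := j12.sub j3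
    have e : (∫ p in U w a, (w p + -a) ^ 2) + (∫ p in V, (-w p + a) ^ 2) - a ^ 2 * A2 =
        ∫ p, ((U w a).indicator (fun p => (w p + -a) ^ 2) p +
          V.indicator (fun p => (-w p + a) ^ 2) p - V.indicator (fun _ => a ^ 2) p
          + 2 * a * w p) := by
      rw [integral_add j123 j4, integral_sub j12 j3, integral_add j1 j2, integral_indicator mU,
        integral_indicator mV, integral_indicator mV, setIntegral_const, integral_const_mul, h0]
      simp [hA2, mu, hV, mul_comm]
    rw [e]
    refine integral_mono_of_nonneg (Eventually.of_forall fun p => sq_nonneg _) (j123.add j4)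
      (Eventually.of_forall fun p => ?_)
    by_cases h1 : p ∈ U w a
    · have h1' : a < w p := h1
      have h2 : p ∉ V := fun (h : 0 < -w p) => by linarith
      simp only [indicator_of_mem h1, indicator_of_notMem h2]
      nlinarith
    · have h1' : w p ≤ a := not_lt.1 h1
      by_cases h2 : p ∈ V
      · simp only [indicator_of_mem h2, indicator_of_notMem h1]
        nlinarith
      · have h2' : -w p ≤ 0 := not_lt.1 h2
        simp only [indicator_of_notMem h2, indicator_of_notMem h1]
        nlinarith
  have k6 : (∫ p in U w a, g2 w p) + (∫ p in B, g2 w p) + (∫ p in V, g2 w p) ≤ ∫ p, g2 w p := by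
    have d1 : Disjoint (U w a) B := disjoint_left.2 fun p (hp : a < w p) hq => by
      linarith [hq.2]
    have d2 : Disjoint (U w a ∪ B) V := disjoint_left.2 fun p hp (hq : 0 < -w p) => by
      rcases hp with hp | hp
      · have : a < w p := hp
        linarith
      · linarith [hp.1]
    rw [← setIntegral_union d1 mB ig.integrableOn ig.integrableOn,
      ← setIntegral_union d2 mV ig.integrableOn ig.integrableOn]
    exact setIntegral_le_integral ig (Eventually.of_forall fun p => g2_nonneg w p)
  have k7 := mul_le_mul_of_nonneg_left k5 hR.l0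
  nlinarith

theorem twist {w : P → ℝ} (hw : ContDiff ℝ 1 w) (hc : HasCompactSupport w)
    (h0 : ∫ p, w p = 0) {l S : ℝ} {H Q : ℝ → ℝ} (hR : Ric l S H Q) (hS : 0 < S)
    (h3 : ∀ s, 0 ≤ s → s < S → (H s - l * s) * (S - s) ≤ 4 * π * S)
    (hA : volume.real {p | w p ≠ 0} ≤ 2 * S) :
    l * ∫ p, w p ^ 2 ≤ ∫ p, g2 w p := by
  by_cases hn : mu (fun p => -w p) 0 ≤ S
  · exact twist_aux hw hc h0 hR hS h3 hA hn
  · have cw := hw.continuous
    have hc' : HasCompactSupport fun p => -w p := hc.neg
    have hp : mu w 0 ≤ S := by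
      have d : Disjoint (U w 0) (U (fun p => -w p) 0) :=
        disjoint_left.2 fun p (hp : 0 < w p) (hq : 0 < -w p) => by linarith
      have e1 := measureReal_union d (meas_U cw.neg 0) (fin_U hc le_rfl) (fin_U hc' le_rfl)
      have e3 : volume.real (U w 0 ∪ U (fun p => -w p) 0) ≤ volume.real {p | w p ≠ 0} := by
        refine measureReal_mono ?_ (fin_of_sub hc fun p hp => hp)
        rintro p (hp | hp)
        · exact (show 0 < w p from hp).ne'
        · have : 0 < -w p := hp
          exact (by linarith : w p < 0).ne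
      unfold mu at hn ⊢
      linarith
    have := twist_aux (w := fun p => -w p) hw.neg hc' (by rw [integral_neg, h0, neg_zero]) hR hS h3
      (by simpa using hA) (by simpa using hp)
    simpa [g2_neg] using this

end Pool.Agent.MP_3d716e_an.H83
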